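import Pool.Agent.X62.MP.Nat
import Pool.Agent.Y886.UTD

/-! Sums of two iterated primes in progressions with generic difference modulo a prime. -/

set_option autoImplicit false

namespace Pool.Agent.X62.MP

open Finset
open Pool.Agent.H197R2.PG (PI)
open Pool.Agent.TH665.GP (PI_prime)

/-- disjoint halves of two finite sets -/
lemma disjoint_halves (S T : Finset ℕ) : ∃ S' T' : Finset ℕ, S' ⊆ S ∧ T' ⊆ T ∧ Disjoint S' T' ∧
    S.card ≤ 2 * S'.card + 1 ∧ T.card ≤ 2 * T'.card + 1 := by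
  classical
  rcases le_total S.card T.card with h | h
  · obtain ⟨S', hS', hc⟩ := Finset.exists_subset_card_eq (s := S) (n := (S.card + 1) / 2) (by omega)
    refine ⟨S', T \ S', hS', sdiff_subset, disjoint_sdiff, by omega, ?_⟩
    have h1 := Finset.le_card_sdiff S' T
    omega
  · obtain ⟨T', hT', hc⟩ := Finset.exists_subset_card_eq (s := T) (n := (T.card + 1) / 2) (by omega)
    refine ⟨S \ T', T', sdiff_subset, hT', sdiff_disjoint, ?_, by omega⟩
    have h1 := Finset.le_card_sdiff T' S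
    omega

/-- the main estimate for the sums of two different odd numbers of two sets -/
theorem odd_sums (q : ℕ) (hq : q.Prime) (S T : Finset ℕ) (hS : ∀ p ∈ S, p.Prime ∧ 2 * p < q)
    (hT : ∀ p ∈ T, p.Prime ∧ 2 * p < q) (hS4 : 4 ≤ S.card) (hT4 : 4 ≤ T.card) (L : ℕ) (hL : 1 ≤ L)
    (hLq : L ≤ q) (V : Finset ℕ)
    (hV : ∀ v ∈ V, 0 < v ∧ v < q ∧ ∃ x : ℕ, ∀ r < L, ∀ a ∈ S, ∀ b ∈ T, ∀ n : ℕ, a ≠ b → a + b = 2 * n →
      ¬ (2 * n ≡ x + r * v [MOD q])) :
    (V.card : ℝ) * L * Real.sqrt (S.card * T.card) ≤ 8 * (q : ℝ) ^ 2 := by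
  classical
  set S1 := S.erase 2 with hS1
  set T1 := T.erase 2 with hT1
  obtain ⟨S', T', hS', hT', hd, hSc, hTc⟩ := disjoint_halves S1 T1
  have hS1c : S.card ≤ S1.card + 1 := by
    have : S.card - 1 ≤ S1.card := Finset.pred_card_le_card_erase
    omega
  have hT1c : T.card ≤ T1.card + 1 := by
    have : T.card - 1 ≤ T1.card := Finset.pred_card_le_card_erase
    omega
  have hS'4 : S.card ≤ 4 * S'.card := by omega
  have hT'4 : T.card ≤ 4 * T'.card := by omega
  have hSne : S'.Nonempty := card_pos.1 (by omega)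
  have hTne : T'.Nonempty := card_pos.1 (by omega)
  set J : ℕ := (L + 1) / 2 with hJ
  have hJ1 : 1 ≤ J := by omega
  have hJq : J ≤ q := by omega
  have hJL : (L : ℝ) ≤ 2 * J := by
    have : L ≤ 2 * J := by omega
    exact_mod_cast this
  have hmS : ∀ a ∈ S', a ∈ S ∧ a % 2 = 1 := by
    intro a ha
    have h1 := Finset.mem_erase.1 (hS' ha)
    refine ⟨h1.2, ?_⟩
    rcases (hS a h1.2).1.eq_two_or_odd with h | h
    · exact absurd h h1.1
    · exact h
  have hmT : ∀ a ∈ T', a ∈ T ∧ a % 2 = 1 := by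
    intro a ha
    have h1 := Finset.mem_erase.1 (hT' ha)
    refine ⟨h1.2, ?_⟩
    rcases (hT a h1.2).1.eq_two_or_odd with h | h
    · exact absurd h h1.1
    · exact h
  have h1 := engine_nat q hq S' T' hSne hTne
    (fun a ha => by have := (hS a (hmS a ha).1).2; omega)
    (fun a ha => by have := (hT a (hmT a ha).1).2; omega) J hJ1 hJq V (by
      intro v hv
      obtain ⟨hv0, hvq, x, hx⟩ := hV v hv
      refine ⟨hv0, hvq, x, fun a ha b hb r hr h => ?_⟩
      have ha2 := (hmS a ha).2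
      have hb2 := (hmT b hb).2
      have hab : a + b = 2 * ((a + b) / 2) := by omega
      refine hx r (by omega) a (hmS a ha).1 b (hmT b hb).1 ((a + b) / 2) ?_ hab ?_
      · intro hne
        exact (Finset.disjoint_left.1 hd ha) (hne ▸ hb)
      · rw [← hab]; exact h)
  have h2 : Real.sqrt (S.card * T.card) ≤ 4 * Real.sqrt (S'.card * T'.card) := by
    have h3 : (S.card : ℝ) * T.card ≤ 4 ^ 2 * (S'.card * T'.card) := by
      have h4 : S.card * T.card ≤ (4 * S'.card) * (4 * T'.card) := Nat.mul_le_mul hS'4 hT'4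
      have h5 : ((S.card * T.card : ℕ) : ℝ) ≤ (((4 * S'.card) * (4 * T'.card) : ℕ) : ℝ) := by
        exact_mod_cast h4
      push_cast at h5
      linarith
    calc Real.sqrt (S.card * T.card) ≤ Real.sqrt (4 ^ 2 * (S'.card * T'.card)) := Real.sqrt_le_sqrt h3
      _ = 4 * Real.sqrt (S'.card * T'.card) := by
          rw [Real.sqrt_mul (by norm_num), Real.sqrt_sq (by norm_num)]
  calc (V.card : ℝ) * L * Real.sqrt (S.card * T.card)
      ≤ V.card * (2 * J) * (4 * Real.sqrt (S'.card * T'.card)) := by gcongr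
    _ = 8 * (V.card * (J * Real.sqrt (S'.card * T'.card))) := by ring
    _ ≤ _ := by linarith

end Pool.Agent.X62.MP
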