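import Pool.Agent.X62.MP.Met2
import Pool.Agent.X62.MP.GP

/-! Borel-Cantelli over dyadic ranges for fractional parts `α (a + b)`. -/

set_option autoImplicit false

namespace Pool.Agent.X62.MP

open Finset MeasureTheory Filter

theorem ae_of_dyadic (S T : ℕ → Finset ℕ) (δ : ℕ → ℝ) (hS : ∀ j, (S j).Nonempty) (hT : ∀ j, (T j).Nonempty)
    (hδ0 : ∀ j, 0 < δ j) (hδ1 : ∀ j, δ j ≤ 1) (f : ℕ → ℝ) (hf0 : ∀ j, 0 ≤ f j) (hf : Summable f)
    (hle : ∀ j, 16 / (δ j * Real.sqrt ((S j).card * (T j).card)) ≤ f j) :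
    ∀ᵐ α : ℝ, ∀ᶠ j : ℕ in atTop, ∀ β : ℝ, ∃ a ∈ S j, ∃ b ∈ T j, ∃ z : ℤ,
      |α * ((a : ℝ) + b) - β - z| ≤ δ j := by
  have hae : ∀ᵐ α : ℝ, ∀ z : ℤ, ∀ᶠ j : ℕ in atTop, α ∉ Bad2 (S j) (T j) (δ j) ∩ Set.Ico (z : ℝ) (z + 1) := by
    rw [ae_all_iff]
    intro z
    apply ae_eventually_notMem
    refine ne_of_lt ?_
    calc ∑' j, volume (Bad2 (S j) (T j) (δ j) ∩ Set.Ico (z : ℝ) (z + 1))
        ≤ ∑' j, ENNReal.ofReal (f j) := by
          refine ENNReal.tsum_le_tsum fun j => ?_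
          exact (measure_bad2 (S j) (T j) (hS j) (hT j) (δ j) (hδ0 j) (hδ1 j) z).trans
            (ENNReal.ofReal_le_ofReal (hle j))
      _ = ENNReal.ofReal (∑' j, f j) := by
          rw [ENNReal.ofReal_tsum_of_nonneg hf0 hf]
      _ < ⊤ := ENNReal.ofReal_lt_top
  filter_upwards [hae] with α hα
  filter_upwards [hα ⌊α⌋] with j hj
  intro β
  have h2 : α ∈ Set.Ico ((⌊α⌋ : ℤ) : ℝ) (⌊α⌋ + 1) := ⟨Int.floor_le α, Int.lt_floor_add_one α⟩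
  have h3 : α ∉ Bad2 (S j) (T j) (δ j) := fun h => hj ⟨h, h2⟩
  unfold Bad2 at h3
  rw [Set.mem_ofPred_eq] at h3
  push Not at h3
  obtain ⟨a, ha, b, hb, z, hz⟩ := h3 β
  exact ⟨a, ha, b, hb, z, hz⟩

/-- disjoint sets of odd primes -/
lemma odd_halves (S T : Finset ℕ) (hS : ∀ p ∈ S, p.Prime) (hT : ∀ p ∈ T, p.Prime) (hS4 : 4 ≤ S.card)
    (hT4 : 4 ≤ T.card) : ∃ S' T' : Finset ℕ, S' ⊆ S ∧ T' ⊆ T ∧ Disjoint S' T' ∧ (∀ p ∈ S', p % 2 = 1) ∧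
      (∀ p ∈ T', p % 2 = 1) ∧ S'.Nonempty ∧ T'.Nonempty ∧ S.card ≤ 4 * S'.card ∧ T.card ≤ 4 * T'.card := by
  obtain ⟨S', T', hS', hT', hd, hSc, hTc⟩ := disjoint_halves (S.erase 2) (T.erase 2)
  have hS1c : S.card - 1 ≤ (S.erase 2).card := Finset.pred_card_le_card_erase
  have hT1c : T.card - 1 ≤ (T.erase 2).card := Finset.pred_card_le_card_erase
  refine ⟨S', T', hS'.trans (Finset.erase_subset _ _), hT'.trans (Finset.erase_subset _ _), hd, ?_, ?_,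
    card_pos.1 (by omega), card_pos.1 (by omega), by omega, by omega⟩
  · intro a ha
    have h1 := Finset.mem_erase.1 (hS' ha)
    rcases (hS a h1.2).eq_two_or_odd with h | h
    · exact absurd h h1.1
    · exact h
  · intro a ha
    have h1 := Finset.mem_erase.1 (hT' ha)
    rcases (hT a h1.2).eq_two_or_odd with h | h
    · exact absurd h h1.1
    · exact h

end Pool.Agent.X62.MP
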