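import Pool.Agent.X62.MP.AE

/-! Many iterated primes of a fixed order. -/

set_option autoImplicit false

namespace Pool.Agent.X62.MP

open Finset Filter
open Pool.Agent.H197R2.PG (PI)
open Pool.Agent.TH665.GP (PI_prime)

lemma dens_fixed (a : ℕ) : ∃ κ : ℝ, 0 < κ ∧ ∃ y0 : ℕ, ∀ y : ℕ, y0 ≤ y → ∃ S : Finset ℕ,
    S ⊆ Icc 1 y ∧ (∀ p ∈ S, PI a p) ∧ 4 ≤ S.card ∧ κ * y ≤ S.card * Real.log y ^ (a + 1) := by
  obtain ⟨c, hc, hc4, hd⟩ := Pool.Agent.Y886.UT.dens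
  have hca : 0 < c ^ (a + 1) := by positivity
  refine ⟨c ^ (a + 1) / 2, by positivity, ?_⟩
  have h1 := (Real.isLittleO_pow_log_id_atTop (n := a + 1)).bound
    (by positivity : (0 : ℝ) < c ^ (a + 1) / 5)
  have h2 : ∀ᶠ y : ℕ in atTop, ‖Real.log (y : ℝ) ^ (a + 1)‖ ≤ c ^ (a + 1) / 5 * ‖id (y : ℝ)‖ :=
    tendsto_natCast_atTop_atTop.eventually h1
  obtain ⟨y0, hy0⟩ := eventually_atTop.1 (h2.and (eventually_ge_atTop 3))
  refine ⟨y0, fun y hy => ?_⟩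
  obtain ⟨h3, hy3⟩ := hy0 y hy
  obtain ⟨S, hS1, hS2, hS3⟩ := hd a y (by omega)
  have hyr : (3 : ℝ) ≤ y := by exact_mod_cast hy3
  have hl : 0 < Real.log y := Real.log_pos (by linarith)
  have hlp : 0 < Real.log y ^ (a + 1) := by positivity
  rw [Real.norm_of_nonneg hlp.le, id, Real.norm_of_nonneg (by linarith)] at h3
  have h5 : 5 * Real.log y ^ (a + 1) ≤ ((S.card : ℝ) + 1) * Real.log y ^ (a + 1) := by
    refine le_trans ?_ hS3
    linarith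
  have h6 : (5 : ℝ) ≤ (S.card : ℝ) + 1 := le_of_mul_le_mul_right h5 hlp
  have h7 : (4 : ℝ) ≤ S.card := by linarith
  refine ⟨S, hS1, hS2, by exact_mod_cast h7, ?_⟩
  have h8 : ((S.card : ℝ) + 1) * Real.log y ^ (a + 1) ≤ (2 * S.card) * Real.log y ^ (a + 1) :=
    mul_le_mul_of_nonneg_right (by linarith) hlp.le
  linarith

end Pool.Agent.X62.MP
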