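import Mathlib

/-! For two sets `A`, `B` of residues modulo a prime `q` and most residues `v`, all the progressions of
length `2 J - 1` with difference `v` meet `A + B`: the second moment in the space of the functions on
`ZMod q`, uniformly over the starting points. -/

set_option autoImplicit false

namespace Pool.Agent.X62.MP

open Finset

variable {q : ℕ} [Fact q.Prime]

/-- number of the `(a, j)`, `a ∈ A`, `j < J`, with `u a - j = c` -/
def cnt (A : Finset (ZMod q)) (J : ℕ) (u c : ZMod q) : ℕ :=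
  ((A ×ˢ range J).filter (fun p => u * p.1 - (p.2 : ZMod q) = c)).card

lemma sum_cnt (A : Finset (ZMod q)) (J : ℕ) (u : ZMod q) : ∑ c, cnt A J u c = A.card * J := by
  unfold cnt
  rw [← card_eq_sum_card_fiberwise (f := fun p : ZMod q × ℕ => u * p.1 - (p.2 : ZMod q)) (t := univ)
    (fun _ _ => mem_coe.2 (mem_univ _)), card_product, card_range]

lemma sum_cnt_sq (A : Finset (ZMod q)) (J : ℕ) (u : ZMod q) :
    ∑ c, cnt A J u c ^ 2 = (((A ×ˢ range J) ×ˢ (A ×ˢ range J)).filter
      (fun p => u * p.1.1 - (p.1.2 : ZMod q) = u * p.2.1 - (p.2.2 : ZMod q))).card := by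
  rw [card_eq_sum_card_fiberwise (f := fun p : (ZMod q × ℕ) × (ZMod q × ℕ) => u * p.1.1 - (p.1.2 : ZMod q))
    (t := univ) (fun _ _ => mem_coe.2 (mem_univ _))]
  refine sum_congr rfl fun c _ => ?_
  unfold cnt
  rw [sq, ← card_product]
  congr 1
  ext ⟨p, p'⟩
  simp only [mem_product, mem_filter]
  constructor
  · rintro ⟨⟨h1, h2⟩, h3, h4⟩
    exact ⟨⟨⟨h1, h3⟩, by rw [h2, h4]⟩, h2⟩
  · rintro ⟨⟨⟨h1, h3⟩, h5⟩, h2⟩
    exact ⟨⟨h1, h2⟩, h3, by rw [← h5, h2]⟩

lemma cast_inj_range {J : ℕ} (hJ : J ≤ q) {i j : ℕ} (hi : i < J) (hj : j < J)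
    (h : (i : ZMod q) = (j : ZMod q)) : i = j := by
  have h1 := (ZMod.natCast_eq_natCast_iff' i j q).1 h
  rwa [Nat.mod_eq_of_lt (by omega), Nat.mod_eq_of_lt (by omega)] at h1

/-- the second moment -/
lemma second (A : Finset (ZMod q)) (J : ℕ) (hJ : J ≤ q) :
    ∑ u ∈ univ.filter (fun u : ZMod q => u ≠ 0), ∑ c, cnt A J u c ^ 2 ≤
      (q - 1) * (A.card * J) + (A.card * (A.card - 1)) * (J * (J - 1)) := by
  classical
  simp_rw [sum_cnt_sq, card_filter]
  rw [sum_comm]
  have hcard : ((univ : Finset (ZMod q)).filter (fun u => u ≠ 0)).card = q - 1 := by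
    rw [filter_ne' univ (0 : ZMod q), card_erase_of_mem (mem_univ _), card_univ, ZMod.card]
  have hsplit : ∀ p ∈ (A ×ˢ range J) ×ˢ (A ×ˢ range J),
      (∑ u ∈ univ.filter (fun u : ZMod q => u ≠ 0),
        if u * p.1.1 - (p.1.2 : ZMod q) = u * p.2.1 - (p.2.2 : ZMod q) then 1 else 0) ≤
      (if p.1 = p.2 then (q - 1) else 0) + (if p.1.1 ≠ p.2.1 ∧ p.1.2 ≠ p.2.2 then 1 else 0) := by
    rintro ⟨⟨a, i⟩, ⟨a', i'⟩⟩ hp
    simp only [mem_product, mem_range] at hp
    simp only [Prod.mk.injEq]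
    rw [← card_filter]
    by_cases h1 : a = a'
    · subst h1
      by_cases h2 : i = i'
      · subst h2
        simp only [and_self, if_true]
        refine le_trans (card_filter_le _ _) ?_
        rw [hcard]; simp
      · have : ((univ.filter (fun u : ZMod q => u ≠ 0)).filter
            (fun u => u * a - (i : ZMod q) = u * a - (i' : ZMod q))).card = 0 := by
          rw [card_eq_zero, filter_eq_empty_iff]
          intro u _ h
          apply h2
          exact cast_inj_range hJ hp.1.2 hp.2.2 (by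
            have := sub_right_injective h
            exact this)
        rw [this]; exact Nat.zero_le _
    · by_cases h2 : i = i'
      · subst h2
        have : ((univ.filter (fun u : ZMod q => u ≠ 0)).filter
            (fun u => u * a - (i : ZMod q) = u * a' - (i : ZMod q))).card = 0 := by
          rw [card_eq_zero, filter_eq_empty_iff]
          intro u hu h
          rw [mem_filter] at hu
          apply h1
          have h3 : u * a = u * a' := sub_left_injective h
          exact mul_left_cancel₀ hu.2 h3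
        rw [this]; exact Nat.zero_le _
      · have : ((univ.filter (fun u : ZMod q => u ≠ 0)).filter
            (fun u => u * a - (i : ZMod q) = u * a' - (i' : ZMod q))).card ≤ 1 := by
          rw [card_le_one]
          intro u hu w hw
          rw [mem_filter] at hu hw
          have h3 : u * (a - a') = (i : ZMod q) - i' := by linear_combination hu.2
          have h4 : w * (a - a') = (i : ZMod q) - i' := by linear_combination hw.2
          exact mul_right_cancel₀ (sub_ne_zero.2 h1) (h3.trans h4.symm)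
        refine this.trans ?_
        simp [h1, h2]
  refine (sum_le_sum hsplit).trans ?_
  rw [sum_add_distrib, ← sum_filter, ← card_filter, sum_const, smul_eq_mul]
  have e1 : (((A ×ˢ range J) ×ˢ (A ×ˢ range J)).filter (fun p => p.1 = p.2)).card = A.card * J := by
    have : ((A ×ˢ range J) ×ˢ (A ×ˢ range J)).filter (fun p => p.1 = p.2) = (A ×ˢ range J).diag := by
      ext p
      simp only [mem_filter, mem_product, mem_diag]
      constructor
      · rintro ⟨⟨h1, h2⟩, h3⟩; exact ⟨h1, h3⟩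
      · rintro ⟨h1, h3⟩; rw [← h3]; exact ⟨⟨h1, h1⟩, rfl⟩
    rw [this, diag_card, card_product, card_range]
  have e2 : (((A ×ˢ range J) ×ˢ (A ×ˢ range J)).filter
      (fun p => p.1.1 ≠ p.2.1 ∧ p.1.2 ≠ p.2.2)).card ≤ (A.card * (A.card - 1)) * (J * (J - 1)) := by
    have h1 : (((A ×ˢ range J) ×ˢ (A ×ˢ range J)).filter
        (fun p => p.1.1 ≠ p.2.1 ∧ p.1.2 ≠ p.2.2)).card ≤ (A.offDiag ×ˢ (range J).offDiag).card := by
      apply card_le_card_of_injOn (fun p => ((p.1.1, p.2.1), (p.1.2, p.2.2)))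
      · intro p hp
        simp only [coe_filter, Set.mem_setOf_eq, mem_product] at hp
        simp only [mem_coe, mem_product, mem_offDiag]
        exact ⟨⟨hp.1.1.1, hp.1.2.1, hp.2.1⟩, hp.1.1.2, hp.1.2.2, hp.2.2⟩
      · rintro ⟨⟨a, i⟩, ⟨a', i'⟩⟩ _ ⟨⟨b, j⟩, ⟨b', j'⟩⟩ _ h
        simp only [Prod.mk.injEq] at h ⊢
        tauto
    refine h1.trans (le_of_eq ?_)
    rw [card_product, offDiag_card, offDiag_card, card_range]
    have : ∀ n : ℕ, n * n - n = n * (n - 1) := by
      intro n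
      rcases n with _ | n
      · rfl
      · simp only [Nat.add_sub_cancel]
        have : (n + 1) * (n + 1) = (n + 1) * n + (n + 1) := by ring
        omega
    rw [this, this]
  rw [e1]
  have e3 := e2
  rw [mul_comm (A.card * J) (q - 1)]
  exact Nat.add_le_add_left e3 _

/-- the deviation from the mean -/
noncomputable def dev (A : Finset (ZMod q)) (J : ℕ) (u : ZMod q) : ℝ :=
  ∑ c, ((cnt A J u c : ℝ) - A.card * J / q) ^ 2

lemma dev_nonneg (A : Finset (ZMod q)) (J : ℕ) (u : ZMod q) : 0 ≤ dev A J u :=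
  sum_nonneg fun _ _ => sq_nonneg _

lemma dev_eq (A : Finset (ZMod q)) (J : ℕ) (u : ZMod q) :
    dev A J u = ((∑ c, cnt A J u c ^ 2 : ℕ) : ℝ) - (A.card * J : ℝ) ^ 2 / q := by
  have hq : (q : ℝ) ≠ 0 := by exact_mod_cast (Fact.out : q.Prime).ne_zero
  have h1 : (∑ c, (cnt A J u c : ℝ)) = A.card * J := by exact_mod_cast sum_cnt A J u
  unfold dev
  simp_rw [sub_sq]
  rw [sum_add_distrib, sum_sub_distrib, ← sum_mul, ← mul_sum, h1, sum_const, card_univ, ZMod.card,
    nsmul_eq_mul]
  push_cast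
  field_simp
  ring

lemma sum_dev (A : Finset (ZMod q)) (hA : A.Nonempty) (J : ℕ) (hJ1 : 1 ≤ J) (hJ : J ≤ q) :
    ∑ u ∈ univ.filter (fun u : ZMod q => u ≠ 0), dev A J u ≤ q * (A.card * J) := by
  have hq0 : 0 < q := (Fact.out : q.Prime).pos
  have hq : (0 : ℝ) < q := by exact_mod_cast hq0
  have hA1 : 1 ≤ A.card := hA.card_pos
  have hAq : A.card ≤ q := by
    have := card_le_univ A
    rwa [ZMod.card] at this
  have hcard : ((univ : Finset (ZMod q)).filter (fun u => u ≠ 0)).card = q - 1 := by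
    rw [filter_ne' univ (0 : ZMod q), card_erase_of_mem (mem_univ _), card_univ, ZMod.card]
  simp_rw [dev_eq]
  rw [sum_sub_distrib, sum_const, hcard, nsmul_eq_mul]
  have h2 := second A J hJ
  have h3 : (∑ u ∈ univ.filter (fun u : ZMod q => u ≠ 0), ((∑ c, cnt A J u c ^ 2 : ℕ) : ℝ)) ≤
      (q - 1) * (A.card * J) + (A.card * (A.card - 1)) * (J * (J - 1)) := by
    have h4 : ((∑ u ∈ univ.filter (fun u : ZMod q => u ≠ 0), ∑ c, cnt A J u c ^ 2 : ℕ) : ℝ) ≤
      (((q - 1) * (A.card * J) + (A.card * (A.card - 1)) * (J * (J - 1)) : ℕ) : ℝ) := by exact_mod_cast h2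
    rw [Nat.cast_sum] at h4
    refine h4.trans (le_of_eq ?_)
    push_cast [Nat.cast_sub hq0, Nat.cast_sub hA1, Nat.cast_sub hJ1]
    ring
  have hAr : (1 : ℝ) ≤ A.card := by exact_mod_cast hA1
  have hJr : (1 : ℝ) ≤ J := by exact_mod_cast hJ1
  have hAqr : (A.card : ℝ) ≤ q := by exact_mod_cast hAq
  have hJqr : (J : ℝ) ≤ q := by exact_mod_cast hJ
  have h5 : (((q - 1 : ℕ) : ℝ)) * ((A.card * J : ℝ) ^ 2 / q) = (A.card * J) ^ 2 - (A.card * J) ^ 2 / q := by
    rw [Nat.cast_sub hq0]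
    push_cast
    field_simp
  rw [h5]
  have h6 : (A.card * J : ℝ) ^ 2 / q ≤ (A.card * J) * A.card := by
    rw [div_le_iff₀ hq]
    have : (A.card * J : ℝ) ^ 2 = (A.card * J) * A.card * J := by ring
    rw [this]
    exact mul_le_mul_of_nonneg_left hJqr (by positivity)
  have hAJ : (0 : ℝ) ≤ A.card * J := by positivity
  nlinarith

/-- If a progression of length `2 J - 1` with difference `u⁻¹` does not meet `A + B`, the deviations are large. -/
lemma bad_dev (A B : Finset (ZMod q)) (J : ℕ) (u x : ZMod q) (hu : u ≠ 0)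
    (h : ∀ a ∈ A, ∀ b ∈ B, ∀ r : ℕ, r + 1 < 2 * J → a + b ≠ x + r * u⁻¹) :
    ((A.card : ℝ) * B.card * J ^ 2 / q) ^ 2 ≤ dev A J u * dev B J u := by
  have hq : (q : ℝ) ≠ 0 := by exact_mod_cast (Fact.out : q.Prime).ne_zero
  have hsumA : (∑ c, (cnt A J u c : ℝ)) = A.card * J := by exact_mod_cast sum_cnt A J u
  have hsumB : (∑ c, (cnt B J u (u * x - c) : ℝ)) = B.card * J := by
    have := (Equiv.subLeft (u * x)).sum_comp (fun c => (cnt B J u c : ℝ))
    simp only [Equiv.subLeft_apply] at this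
    rw [this]
    exact_mod_cast sum_cnt B J u
  have hzero : ∑ c, (cnt A J u c : ℝ) * (cnt B J u (u * x - c) : ℝ) = 0 := by
    refine sum_eq_zero fun c _ => ?_
    by_contra hne
    have h1 : cnt A J u c ≠ 0 := by
      intro h0; apply hne; rw [h0]; simp
    have h2 : cnt B J u (u * x - c) ≠ 0 := by
      intro h0; apply hne; rw [h0]; simp
    obtain ⟨⟨a, i⟩, hp⟩ := card_pos.1 (Nat.pos_of_ne_zero h1)
    obtain ⟨⟨b, j⟩, hp'⟩ := card_pos.1 (Nat.pos_of_ne_zero h2)
    simp only [mem_filter, mem_product, mem_range] at hp hp'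
    apply h a hp.1.1 b hp'.1.1 (i + j) (by omega)
    have e1 : u * (a + b) = u * x + (i + j) := by linear_combination hp.2 + hp'.2
    have e2 : a + b = u⁻¹ * (u * x + (i + j)) := by
      rw [← e1, inv_mul_cancel_left₀ hu]
    rw [e2, mul_add, inv_mul_cancel_left₀ hu]
    push_cast
    ring
  have hsq := sum_mul_sq_le_sq_mul_sq univ (fun c : ZMod q => (cnt A J u c : ℝ) - A.card * J / q)
    (fun c : ZMod q => (cnt B J u (u * x - c) : ℝ) - B.card * J / q)
  have e3 : ∑ c : ZMod q, ((cnt A J u c : ℝ) - A.card * J / q) * ((cnt B J u (u * x - c) : ℝ) - B.card * J / q)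
      = -((A.card : ℝ) * B.card * J ^ 2 / q) := by
    have : ∀ c : ZMod q, ((cnt A J u c : ℝ) - A.card * J / q) * ((cnt B J u (u * x - c) : ℝ) - B.card * J / q) =
      (cnt A J u c : ℝ) * (cnt B J u (u * x - c) : ℝ) - (cnt A J u c : ℝ) * (B.card * J / q) -
        (A.card * J / q) * (cnt B J u (u * x - c) : ℝ) + (A.card * J / q) * (B.card * J / q) := by
      intro c; ring
    simp_rw [this]
    rw [sum_add_distrib, sum_sub_distrib, sum_sub_distrib, hzero, ← sum_mul, ← mul_sum, hsumA, hsumB,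
      sum_const, card_univ, ZMod.card, nsmul_eq_mul]
    field_simp
    ring
  have e4 : ∑ c : ZMod q, ((cnt B J u (u * x - c) : ℝ) - B.card * J / q) ^ 2 = dev B J u := by
    have := (Equiv.subLeft (u * x)).sum_comp (fun c => ((cnt B J u c : ℝ) - B.card * J / q) ^ 2)
    simp only [Equiv.subLeft_apply] at this
    rw [this]
    rfl
  rw [e3, e4, neg_sq] at hsq
  exact hsq

/-- **Progressions with a generic difference.** -/
theorem engine (A B : Finset (ZMod q)) (hA : A.Nonempty) (hB : B.Nonempty) (J : ℕ) (hJ1 : 1 ≤ J)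
    (hJ : J ≤ q) (V : Finset (ZMod q))
    (hV : ∀ v ∈ V, v ≠ 0 ∧ ∃ x : ZMod q, ∀ a ∈ A, ∀ b ∈ B, ∀ r : ℕ, r + 1 < 2 * J → a + b ≠ x + r * v) :
    (V.card : ℝ) * (J * Real.sqrt (A.card * B.card)) ≤ (q : ℝ) ^ 2 := by
  classical
  have hq0 : 0 < q := (Fact.out : q.Prime).pos
  have hq : (0 : ℝ) < q := by exact_mod_cast hq0
  have hAr : (0 : ℝ) < A.card := by exact_mod_cast hA.card_pos
  have hBr : (0 : ℝ) < B.card := by exact_mod_cast hB.card_pos
  have hJr : (0 : ℝ) < J := by exact_mod_cast hJ1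
  set m : ℝ := Real.sqrt (A.card * B.card) with hm
  have hm0 : 0 < m := Real.sqrt_pos.2 (by positivity)
  have hm2 : m ^ 2 = A.card * B.card := Real.sq_sqrt (by positivity)
  -- each bad `v`
  have hbad : ∀ v ∈ V, 2 * (m * J ^ 2 / q) ≤ dev A J v⁻¹ / A.card + dev B J v⁻¹ / B.card := by
    intro v hv
    obtain ⟨hv0, x, hx⟩ := hV v hv
    have h1 := bad_dev A B J v⁻¹ x (inv_ne_zero hv0) (by simpa only [inv_inv] using hx)
    have hdA := dev_nonneg A J v⁻¹
    have hdB := dev_nonneg B J v⁻¹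
    have h2 : (m * J ^ 2 / q) ^ 2 ≤ (dev A J v⁻¹ / A.card) * (dev B J v⁻¹ / B.card) := by
      rw [div_mul_div_comm, le_div_iff₀ (by positivity)]
      refine le_trans (le_of_eq ?_) h1
      have : (m * J ^ 2 / q) ^ 2 = m ^ 2 * (J ^ 2 / q) ^ 2 := by ring
      rw [this, hm2]
      ring
    have h3 : 0 ≤ dev A J v⁻¹ / A.card := by positivity
    have h4 : 0 ≤ dev B J v⁻¹ / B.card := by positivity
    have h5 : 0 ≤ m * J ^ 2 / q := by positivity
    nlinarith [sq_nonneg (dev A J v⁻¹ / A.card - dev B J v⁻¹ / B.card),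
      abs_le_of_sq_le_sq' (a := 2 * (m * J ^ 2 / q)) (b := dev A J v⁻¹ / A.card + dev B J v⁻¹ / B.card)
        (by nlinarith [sq_nonneg (dev A J v⁻¹ / A.card - dev B J v⁻¹ / B.card)]) (by positivity)]
  have hsub : ∀ D : ZMod q → ℝ, (∀ u, 0 ≤ D u) → ∑ v ∈ V, D v⁻¹ ≤ ∑ u ∈ univ.filter (fun u : ZMod q => u ≠ 0), D u := by
    intro D hD
    rw [← sum_image (f := D) (s := V) (g := fun v => v⁻¹) (fun v _ w _ h => inv_injective h)]
    apply sum_le_sum_of_subset_of_nonneg
    · intro u hu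
      obtain ⟨v, hv, rfl⟩ := mem_image.1 hu
      rw [mem_filter]
      exact ⟨mem_univ _, inv_ne_zero (hV v hv).1⟩
    · intro u _ _; exact hD u
  have h1 : (V.card : ℝ) * (2 * (m * J ^ 2 / q)) ≤ 2 * (q * J) := by
    calc (V.card : ℝ) * (2 * (m * J ^ 2 / q)) = ∑ v ∈ V, 2 * (m * J ^ 2 / q) := by
          rw [sum_const, nsmul_eq_mul]
      _ ≤ ∑ v ∈ V, (dev A J v⁻¹ / A.card + dev B J v⁻¹ / B.card) := sum_le_sum hbad
      _ = ∑ v ∈ V, dev A J v⁻¹ / A.card + ∑ v ∈ V, dev B J v⁻¹ / B.card := sum_add_distrib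
      _ ≤ q * J + q * J := by
          apply add_le_add
          · refine (hsub (fun u => dev A J u / A.card) (fun u => div_nonneg (dev_nonneg _ _ _) hAr.le)).trans ?_
            rw [← sum_div, div_le_iff₀ hAr]
            refine (sum_dev A hA J hJ1 hJ).trans (le_of_eq (by ring))
          · refine (hsub (fun u => dev B J u / B.card) (fun u => div_nonneg (dev_nonneg _ _ _) hBr.le)).trans ?_
            rw [← sum_div, div_le_iff₀ hBr]
            refine (sum_dev B hB J hJ1 hJ).trans (le_of_eq (by ring))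
      _ = 2 * (q * J) := by ring
  have h2 : (V.card : ℝ) * (2 * (m * J ^ 2 / q)) = 2 * J / q * (V.card * (J * m)) := by
    field_simp
  rw [h2] at h1
  have h3 : (2 : ℝ) * (q * J) = 2 * J / q * q ^ 2 := by field_simp
  rw [h3] at h1
  exact le_of_mul_le_mul_left h1 (by positivity)

end Pool.Agent.X62.MP
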