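import Pool.Agent.X62.MP.Nat

/-! Fractional parts `α (a + b)` for almost all real `α`: the measure of the exceptional set. -/

set_option autoImplicit false

namespace Pool.Agent.X62.MP

open Finset MeasureTheory

/-- the estimate for the multiples `v (a + b)` in short intervals modulo `q` -/
theorem engine_dual2 (q : ℕ) (hq : q.Prime) (S T : Finset ℕ) (hS : S.Nonempty) (hT : T.Nonempty)
    (hSq : ∀ a ∈ S, a < q) (hTq : ∀ a ∈ T, a < q) (J : ℕ) (hJ1 : 1 ≤ J) (hJ : J ≤ q) (V : Finset ℕ)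
    (hV : ∀ v ∈ V, 0 < v ∧ v < q ∧
      ∃ x : ℤ, ∀ a ∈ S, ∀ b ∈ T, ∀ r : ℕ, r + 1 < 2 * J → ¬ ((v : ℤ) * (a + b) ≡ x + r [ZMOD q])) :
    (V.card : ℝ) * (J * Real.sqrt (S.card * T.card)) ≤ (q : ℝ) ^ 2 := by
  classical
  haveI : Fact q.Prime := ⟨hq⟩
  have h0 : ∀ v ∈ V, (v : ZMod q) ≠ 0 := by
    intro v hv h
    rw [ZMod.natCast_eq_zero_iff] at h
    exact absurd (Nat.le_of_dvd (hV v hv).1 h) (by have := (hV v hv).2.1; omega)
  have hinj : Set.InjOn (fun v : ℕ => ((v : ZMod q))⁻¹) (V : Set ℕ) := by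
    intro v hv w hw h
    exact natcast_injOn V (fun v hv => (hV v hv).2.1) hv hw (inv_injective h)
  have h1 := engine (q := q) (S.image (fun a : ℕ => (a : ZMod q))) (T.image (fun a : ℕ => (a : ZMod q)))
    (hS.image _) (hT.image _) J hJ1 hJ (V.image (fun v : ℕ => ((v : ZMod q))⁻¹)) ?_
  · rw [card_image_of_injOn (natcast_injOn S hSq), card_image_of_injOn (natcast_injOn T hTq),
      card_image_of_injOn hinj] at h1
    exact h1
  · intro w hw
    obtain ⟨v, hv, rfl⟩ := mem_image.1 hw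
    obtain ⟨hv0, hvq, x, hx⟩ := hV v hv
    have hv' := h0 v hv
    refine ⟨inv_ne_zero hv', (v : ZMod q)⁻¹ * (x : ZMod q), ?_⟩
    intro a ha b hb r hr h
    obtain ⟨a', ha', rfl⟩ := mem_image.1 ha
    obtain ⟨b', hb', rfl⟩ := mem_image.1 hb
    apply hx a' ha' b' hb' r hr
    rw [← ZMod.intCast_eq_intCast_iff]
    push_cast
    have h2 : (v : ZMod q) * ((a' : ZMod q) + b') = (v : ZMod q) * ((v : ZMod q)⁻¹ * x + r * (v : ZMod q)⁻¹) := by
      rw [h]
    rw [h2]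
    field_simp

/-- the exceptional set: for some `β` no `a + b` satisfies `‖α (a + b) - β‖ ≤ δ` -/
def Bad2 (S T : Finset ℕ) (δ : ℝ) : Set ℝ :=
  {α | ∃ β : ℝ, ∀ a ∈ S, ∀ b ∈ T, ∀ z : ℤ, δ < |α * ((a : ℝ) + b) - β - z|}

/-- the measure of the exceptional set -/
theorem measure_bad2 (S T : Finset ℕ) (hS : S.Nonempty) (hT : T.Nonempty) (δ : ℝ) (hδ0 : 0 < δ)
    (hδ1 : δ ≤ 1) (z : ℤ) :
    volume (Bad2 S T δ ∩ Set.Ico (z : ℝ) (z + 1)) ≤
      ENNReal.ofReal (16 / (δ * Real.sqrt (S.card * T.card))) := by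
  classical
  have hSc0 : (0 : ℝ) < S.card := by exact_mod_cast hS.card_pos
  have hTc0 : (0 : ℝ) < T.card := by exact_mod_cast hT.card_pos
  set g : ℝ := Real.sqrt (S.card * T.card) with hg
  have hSc : (0 : ℝ) < g := Real.sqrt_pos.2 (mul_pos hSc0 hTc0)
  -- a large prime
  set N : ℕ := ∑ a ∈ S, a + ∑ a ∈ T, a with hN
  have hSN : ∀ a ∈ S, a ≤ N := fun a ha =>
    (single_le_sum (f := fun a : ℕ => a) (fun _ _ => Nat.zero_le _) ha).trans (Nat.le_add_right _ _)
  have hTN : ∀ a ∈ T, a ≤ N := fun a ha =>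
    (single_le_sum (f := fun a : ℕ => a) (fun _ _ => Nat.zero_le _) ha).trans (Nat.le_add_left _ _)
  set K : ℕ := ⌈(8 * ((N : ℝ) + 1) + 8 + g) / δ⌉₊ with hK
  obtain ⟨q, hqK, hq⟩ := Nat.exists_infinite_primes (K + N + 2)
  have hq0 : 0 < q := hq.pos
  have hqr : (0 : ℝ) < q := by exact_mod_cast hq0
  have hqδ : 8 * ((N : ℝ) + 1) + 8 + g ≤ δ * q := by
    have h1 : (8 * ((N : ℝ) + 1) + 8 + g) / δ ≤ K := Nat.le_ceil _
    have h2 : (K : ℝ) ≤ q := by exact_mod_cast (by omega : K ≤ q)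
    have h3 := h1.trans h2
    rw [div_le_iff₀ hδ0] at h3
    linarith
  have hNq : N < q := by omega
  have hN0 : (0 : ℝ) ≤ N := Nat.cast_nonneg _
  set J : ℕ := ⌊δ * q / 4⌋₊ with hJ
  have hJle : (J : ℝ) ≤ δ * q / 4 := Nat.floor_le (by positivity)
  have hJge : δ * q / 8 ≤ J := by
    have h1 : δ * q / 4 < J + 1 := Nat.lt_floor_add_one _
    linarith
  have hJ1 : 1 ≤ J := by
    rw [hJ, Nat.one_le_floor_iff]
    linarith
  have hJq : J ≤ q := by
    have h1 : (J : ℝ) ≤ q := by nlinarith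
    exact_mod_cast h1
  -- the exceptional multipliers
  set V : Finset ℕ := (range q).filter (fun v => 0 < v ∧
      ∃ x : ℤ, ∀ a ∈ S, ∀ b ∈ T, ∀ r : ℕ, r + 1 < 2 * J → ¬ ((v : ℤ) * (a + b) ≡ x + r [ZMOD q])) with hV
  have hcount := engine_dual2 q hq S T hS hT (fun a ha => lt_of_le_of_lt (hSN a ha) hNq)
    (fun a ha => lt_of_le_of_lt (hTN a ha) hNq) J hJ1 hJq V (by
    intro v hv
    rw [hV, mem_filter, mem_range] at hv
    exact ⟨hv.2.1, hv.1, hv.2.2⟩)
  have hVc : (V.card : ℝ) ≤ 8 * q / (δ * g) := by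
    rw [le_div_iff₀ (by positivity)]
    have h1 : (V.card : ℝ) * ((δ * q / 8) * g) ≤ q ^ 2 := by
      refine le_trans ?_ hcount
      gcongr
    have h2 : (V.card : ℝ) * (δ * g) * q ≤ (8 * q) * q := by nlinarith
    exact le_of_mul_le_mul_right h2 hqr
  -- the cells
  have hcover : Bad2 S T δ ∩ Set.Ico (z : ℝ) (z + 1) ⊆
      ⋃ v ∈ insert 0 V, Set.Ico ((z : ℝ) + v / q) (z + v / q + 1 / q) := by
    rintro α ⟨⟨β, hβ⟩, hz1, hz2⟩
    set φ : ℝ := α - z with hφ
    have hφ0 : 0 ≤ φ := by linarith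
    have hφ1 : φ < 1 := by linarith
    set v : ℕ := ⌊q * φ⌋₊ with hv
    have hv1 : (v : ℝ) ≤ q * φ := Nat.floor_le (by positivity)
    have hv2 : q * φ < v + 1 := Nat.lt_floor_add_one _
    have hvq : v < q := by
      have h1 : (v : ℝ) < q := by nlinarith
      exact_mod_cast h1
    have hcell : α ∈ Set.Ico ((z : ℝ) + v / q) (z + v / q + 1 / q) := by
      constructor
      · have : (v : ℝ) / q ≤ φ := by rw [div_le_iff₀ hqr]; linarith
        linarith
      · have : φ < (v + 1) / q := by rw [lt_div_iff₀ hqr]; linarith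
        rw [add_div] at this
        linarith
    rw [Set.mem_iUnion₂]
    refine ⟨v, ?_, hcell⟩
    rw [mem_insert]
    by_cases hv0 : v = 0
    · exact Or.inl hv0
    right
    rw [hV, mem_filter, mem_range]
    refine ⟨hvq, Nat.pos_of_ne_zero hv0, ⌊β * q⌋, fun a ha b hb r hr hmod => ?_⟩
    -- v (a + b) = x + r + t q
    obtain ⟨t, ht⟩ := hmod.symm.dvd
    have h1 : ((v : ℝ)) * (a + b) = ⌊β * q⌋ + r + q * t := by
      have : (v : ℤ) * (a + b) = ⌊β * q⌋ + r + q * t := by linarith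
      exact_mod_cast this
    have hx1 : (⌊β * q⌋ : ℝ) ≤ β * q := Int.floor_le _
    have hx2 : β * q < ⌊β * q⌋ + 1 := Int.lt_floor_add_one _
    have haN : (a : ℝ) ≤ N := by exact_mod_cast hSN a ha
    have hbN : (b : ℝ) ≤ N := by exact_mod_cast hTN b hb
    have ha0 : (0 : ℝ) ≤ a := Nat.cast_nonneg _
    have hb0 : (0 : ℝ) ≤ b := Nat.cast_nonneg _
    have hr0 : (0 : ℝ) ≤ r := Nat.cast_nonneg _
    have hrJ : (r : ℝ) ≤ 2 * J := by exact_mod_cast (by omega : r ≤ 2 * J)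
    have hbad := hβ a ha b hb (z * (a + b) + t)
    have h2 : |q * (α * ((a : ℝ) + b) - β - ((z * (a + b) + t : ℤ) : ℝ))| ≤ q * δ := by
      have h3 : q * (α * ((a : ℝ) + b) - β - ((z * (a + b) + t : ℤ) : ℝ)) =
          (q * φ - v) * (a + b) + ((⌊β * q⌋ : ℝ) - β * q) + r := by
        have h4 : α = z + φ := by rw [hφ]; ring
        rw [h4]
        push_cast
        linear_combination h1
      rw [h3]
      have h5 : 0 ≤ (q * φ - v) * ((a : ℝ) + b) := mul_nonneg (by linarith) (by linarith)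
      have h6 : (q * φ - v) * ((a : ℝ) + b) ≤ 1 * (2 * N) :=
        mul_le_mul (by linarith) (by linarith) (by linarith) (by norm_num)
      rw [abs_le]
      constructor <;> nlinarith
    rw [abs_mul, abs_of_pos hqr] at h2
    exact absurd (le_of_mul_le_mul_left h2 hqr) (not_le.2 hbad)
  refine (measure_mono hcover).trans ?_
  refine (measure_biUnion_finset_le _ _).trans ?_
  have hvol : ∀ v ∈ insert 0 V, volume (Set.Ico ((z : ℝ) + v / q) (z + v / q + 1 / q)) = ENNReal.ofReal (1 / q) := by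
    intro v _
    rw [Real.volume_Ico]
    congr 1
    ring
  rw [sum_congr rfl hvol, sum_const, nsmul_eq_mul, ← ENNReal.ofReal_natCast,
    ← ENNReal.ofReal_mul (Nat.cast_nonneg _)]
  apply ENNReal.ofReal_le_ofReal
  have hins : ((insert 0 V).card : ℝ) ≤ V.card + 1 := by exact_mod_cast card_insert_le 0 V
  rw [mul_one_div, div_le_iff₀ hqr]
  have h9 : (1 : ℝ) ≤ 8 * q / (δ * g) := by
    rw [le_div_iff₀ (by positivity)]
    have : δ * g ≤ 1 * g := mul_le_mul_of_nonneg_right hδ1 hSc.le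
    have h10 : δ * q ≤ 1 * q := mul_le_mul_of_nonneg_right hδ1 hqr.le
    linarith
  calc ((insert 0 V).card : ℝ) ≤ 8 * q / (δ * g) + 8 * q / (δ * g) := by linarith
    _ = 16 / (δ * g) * q := by ring

end Pool.Agent.X62.MP
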