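import Pool.Agent.X62.MP.Eng

/-! The estimate for sets of natural numbers. -/

set_option autoImplicit false

namespace Pool.Agent.X62.MP

open Finset

lemma natcast_injOn {q : ℕ} (S : Finset ℕ) (hS : ∀ a ∈ S, a < q) :
    Set.InjOn (fun a : ℕ => (a : ZMod q)) (S : Set ℕ) := by
  intro a ha b hb h
  have h1 := (ZMod.natCast_eq_natCast_iff' a b q).1 h
  rwa [Nat.mod_eq_of_lt (hS a ha), Nat.mod_eq_of_lt (hS b hb)] at h1

theorem engine_nat (q : ℕ) (hq : q.Prime) (S T : Finset ℕ) (hS : S.Nonempty) (hT : T.Nonempty)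
    (hSq : ∀ a ∈ S, a < q) (hTq : ∀ b ∈ T, b < q) (J : ℕ) (hJ1 : 1 ≤ J) (hJ : J ≤ q) (V : Finset ℕ)
    (hV : ∀ v ∈ V, 0 < v ∧ v < q ∧
      ∃ x : ℕ, ∀ a ∈ S, ∀ b ∈ T, ∀ r : ℕ, r + 1 < 2 * J → ¬ (a + b ≡ x + r * v [MOD q])) :
    (V.card : ℝ) * (J * Real.sqrt (S.card * T.card)) ≤ (q : ℝ) ^ 2 := by
  classical
  haveI : Fact q.Prime := ⟨hq⟩
  have h1 := engine (q := q) (S.image (fun a : ℕ => (a : ZMod q))) (T.image (fun a : ℕ => (a : ZMod q)))
    (hS.image _) (hT.image _) J hJ1 hJ (V.image (fun a : ℕ => (a : ZMod q))) ?_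
  · rw [card_image_of_injOn (natcast_injOn S hSq), card_image_of_injOn (natcast_injOn T hTq),
      card_image_of_injOn (natcast_injOn V (fun v hv => (hV v hv).2.1))] at h1
    exact h1
  · intro w hw
    obtain ⟨v, hv, rfl⟩ := mem_image.1 hw
    obtain ⟨hv0, hvq, x, hx⟩ := hV v hv
    refine ⟨?_, (x : ZMod q), ?_⟩
    · intro h
      rw [ZMod.natCast_eq_zero_iff] at h
      exact absurd (Nat.le_of_dvd hv0 h) (by omega)
    · intro a ha b hb r hr h
      obtain ⟨a', ha', rfl⟩ := mem_image.1 ha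
      obtain ⟨b', hb', rfl⟩ := mem_image.1 hb
      apply hx a' ha' b' hb' r hr
      have h2 : ((a' + b' : ℕ) : ZMod q) = ((x + r * v : ℕ) : ZMod q) := by push_cast; exact h
      exact (ZMod.natCast_eq_natCast_iff _ _ _).1 h2

end Pool.Agent.X62.MP
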