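import Pool.Agent.X62.MP.TwoNat

/-! Sums `a + c + y ^ k b` modulo a prime `q`, with a suitable small `y`. -/

set_option autoImplicit false

namespace Pool.Agent.X62.MP

open Finset

theorem three (q : ℕ) (hq : q.Prime) (k : ℕ) (hk : 1 ≤ k) (S : Finset ℕ) (hS : S.Nonempty)
    (hSq : ∀ a ∈ S, a < q) (Y : ℕ) (hYq : Y < q)
    (h : ∀ y : ℕ, 1 ≤ y → y ≤ Y → ∃ x : ℕ, ∀ a ∈ S, ∀ b ∈ S, ∀ c ∈ S, ¬ (a + c + y ^ k * b ≡ x [MOD q])) :
    (Y : ℝ) * (S.card : ℝ) ^ 3 ≤ k * (q : ℝ) ^ 3 := by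
  classical
  haveI : Fact q.Prime := ⟨hq⟩
  set A : Finset (ZMod q) := S.image (fun a : ℕ => (a : ZMod q)) with hA
  have hAc : A.card = S.card := card_image_of_injOn (natcast_injOn' S hSq)
  have hAne : A.Nonempty := hS.image _
  set f : ℕ → ZMod q := fun y => (y : ZMod q) ^ k with hf
  set W : Finset (ZMod q) := (Icc 1 Y).image f with hW
  have hYW : Y ≤ k * W.card := by
    have h1 := Finset.card_le_mul_card_image (s := Icc 1 Y) (f := f) k (by
      intro v _
      have h2 : ((Icc 1 Y).filter (fun y => f y = v)).image (fun y : ℕ => (y : ZMod q)) ⊆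
          (Polynomial.nthRoots k v).toFinset := by
        intro w hw
        obtain ⟨y, hy, rfl⟩ := mem_image.1 hw
        rw [mem_filter] at hy
        rw [Multiset.mem_toFinset, Polynomial.mem_nthRoots (by omega)]
        exact hy.2
      have h3 : (((Icc 1 Y).filter (fun y => f y = v)).image (fun y : ℕ => (y : ZMod q))).card =
          ((Icc 1 Y).filter (fun y => f y = v)).card := by
        apply card_image_of_injOn
        apply natcast_injOn'
        intro y hy
        rw [mem_filter, mem_Icc] at hy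
        omega
      rw [← h3]
      exact (card_le_card h2).trans ((Multiset.toFinset_card_le _).trans (Polynomial.card_nthRoots k v)))
    rwa [Nat.card_Icc, Nat.add_sub_cancel] at h1
  have hx : ∀ v : ZMod q, ∃ x : ZMod q, v ∈ W → v ≠ 0 ∧ ∀ a ∈ A, ∀ b ∈ A, ∀ c ∈ A, a + c + v * b ≠ x := by
    intro v
    by_cases hv : v ∈ W
    · obtain ⟨y, hy, rfl⟩ := mem_image.1 hv
      rw [mem_Icc] at hy
      obtain ⟨x, hx⟩ := h y hy.1 hy.2
      refine ⟨(x : ZMod q), fun _ => ⟨pow_ne_zero _ (natcast_ne_zero hy.1 (by omega)), ?_⟩⟩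
      intro a ha b hb c hc he
      obtain ⟨a', ha', rfl⟩ := mem_image.1 ha
      obtain ⟨b', hb', rfl⟩ := mem_image.1 hb
      obtain ⟨c', hc', rfl⟩ := mem_image.1 hc
      apply hx a' ha' b' hb' c' hc'
      have h2 : ((a' + c' + y ^ k * b' : ℕ) : ZMod q) = ((x : ℕ) : ZMod q) := by push_cast; exact he
      exact (ZMod.natCast_eq_natCast_iff _ _ _).1 h2
    · exact ⟨0, fun h => absurd h hv⟩
  choose ξ hξ using hx
  set P : Finset (ZMod q × ZMod q) := (W ×ˢ A).image (fun p => (p.1, ξ p.1 - p.2)) with hP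
  have hPc : P.card = W.card * A.card := by
    rw [hP, card_image_of_injective, card_product]
    rintro ⟨v, c⟩ ⟨v', c'⟩ he
    simp only [Prod.mk.injEq] at he ⊢
    obtain ⟨h1, h2⟩ := he
    subst h1
    exact ⟨rfl, sub_right_injective h2⟩
  have key := pairs A A hAne hAne P (by
    intro p hp
    obtain ⟨⟨v, c⟩, hvc, rfl⟩ := mem_image.1 hp
    rw [mem_product] at hvc
    obtain ⟨h1, h2⟩ := hξ v hvc.1
    refine ⟨h1, fun a ha b hb he => h2 a ha b hb c hvc.2 ?_⟩
    simp only at he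
    linear_combination he)
  rw [hPc, hAc] at key
  push_cast at key
  have hYW' : (Y : ℝ) ≤ k * W.card := by exact_mod_cast hYW
  calc (Y : ℝ) * (S.card : ℝ) ^ 3 ≤ (k * W.card) * (S.card : ℝ) ^ 3 := by gcongr
    _ = k * ((W.card : ℝ) * S.card * (S.card * S.card)) := by ring
    _ ≤ k * (q : ℝ) ^ 3 := mul_le_mul_of_nonneg_left key (Nat.cast_nonneg _)

end Pool.Agent.X62.MP
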