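import Mathlib

/-! For two sets `A`, `B` of residues modulo a prime `q`: the sums `a + v b`, for most `v`. -/

set_option autoImplicit false

namespace Pool.Agent.X62.MP

open Finset

variable {q : ℕ} [Fact q.Prime]

/-- number of the `(a, b)` with `a + v b = x` -/
def cn (A B : Finset (ZMod q)) (v x : ZMod q) : ℕ :=
  ((A ×ˢ B).filter (fun p => p.1 + v * p.2 = x)).card

lemma sum_cn (A B : Finset (ZMod q)) (v : ZMod q) : ∑ x, cn A B v x = A.card * B.card := by
  unfold cn
  rw [← card_eq_sum_card_fiberwise (f := fun p : ZMod q × ZMod q => p.1 + v * p.2) (t := univ)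
    (fun _ _ => mem_coe.2 (mem_univ _)), card_product]

lemma sum_cn_sq (A B : Finset (ZMod q)) (v : ZMod q) :
    ∑ x, cn A B v x ^ 2 = (((A ×ˢ B) ×ˢ (A ×ˢ B)).filter
      (fun p => p.1.1 + v * p.1.2 = p.2.1 + v * p.2.2)).card := by
  rw [card_eq_sum_card_fiberwise (f := fun p : (ZMod q × ZMod q) × (ZMod q × ZMod q) => p.1.1 + v * p.1.2)
    (t := univ) (fun _ _ => mem_coe.2 (mem_univ _))]
  refine sum_congr rfl fun c _ => ?_
  unfold cn
  rw [sq, ← card_product]
  congr 1
  ext ⟨p, p'⟩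
  simp only [mem_product, mem_filter]
  constructor
  · rintro ⟨⟨h1, h2⟩, h3, h4⟩
    exact ⟨⟨⟨h1, h3⟩, by rw [h2, h4]⟩, h2⟩
  · rintro ⟨⟨⟨h1, h3⟩, h5⟩, h2⟩
    exact ⟨⟨h1, h2⟩, h3, by rw [← h5, h2]⟩

/-- the second moment -/
lemma second2 (A B : Finset (ZMod q)) :
    ∑ v ∈ univ.filter (fun v : ZMod q => v ≠ 0), ∑ x, cn A B v x ^ 2 ≤
      (q - 1) * (A.card * B.card) + (A.card * (A.card - 1)) * (B.card * (B.card - 1)) := by
  classical
  simp_rw [sum_cn_sq, card_filter]
  rw [sum_comm]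
  have hcard : ((univ : Finset (ZMod q)).filter (fun u => u ≠ 0)).card = q - 1 := by
    rw [filter_ne' univ (0 : ZMod q), card_erase_of_mem (mem_univ _), card_univ, ZMod.card]
  have hsplit : ∀ p ∈ (A ×ˢ B) ×ˢ (A ×ˢ B),
      (∑ v ∈ univ.filter (fun u : ZMod q => u ≠ 0),
        if p.1.1 + v * p.1.2 = p.2.1 + v * p.2.2 then 1 else 0) ≤
      (if p.1 = p.2 then (q - 1) else 0) + (if p.1.1 ≠ p.2.1 ∧ p.1.2 ≠ p.2.2 then 1 else 0) := by
    rintro ⟨⟨a, i⟩, ⟨a', i'⟩⟩ hp
    simp only [mem_product] at hp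
    simp only [Prod.mk.injEq]
    rw [← card_filter]
    by_cases h1 : a = a'
    · subst h1
      by_cases h2 : i = i'
      · subst h2
        simp only [and_self, if_true]
        refine le_trans (card_filter_le _ _) ?_
        rw [hcard]; simp
      · have : ((univ.filter (fun u : ZMod q => u ≠ 0)).filter
            (fun u => a + u * i = a + u * i')).card = 0 := by
          rw [card_eq_zero, filter_eq_empty_iff]
          intro u hu h
          rw [mem_filter] at hu
          apply h2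
          exact mul_left_cancel₀ hu.2 (add_left_cancel h)
        rw [this]; exact Nat.zero_le _
    · by_cases h2 : i = i'
      · subst h2
        have : ((univ.filter (fun u : ZMod q => u ≠ 0)).filter
            (fun u => a + u * i = a' + u * i)).card = 0 := by
          rw [card_eq_zero, filter_eq_empty_iff]
          intro u hu h
          exact h1 (add_right_cancel h)
        rw [this]; exact Nat.zero_le _
      · have : ((univ.filter (fun u : ZMod q => u ≠ 0)).filter
            (fun u => a + u * i = a' + u * i')).card ≤ 1 := by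
          rw [card_le_one]
          intro u hu w hw
          rw [mem_filter] at hu hw
          have h3 : u * (i - i') = a' - a := by linear_combination hu.2
          have h4 : w * (i - i') = a' - a := by linear_combination hw.2
          exact mul_right_cancel₀ (sub_ne_zero.2 h2) (h3.trans h4.symm)
        refine this.trans ?_
        simp [h1, h2]
  refine (sum_le_sum hsplit).trans ?_
  rw [sum_add_distrib, ← sum_filter, ← card_filter, sum_const, smul_eq_mul]
  have e1 : (((A ×ˢ B) ×ˢ (A ×ˢ B)).filter (fun p => p.1 = p.2)).card = A.card * B.card := by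
    have : ((A ×ˢ B) ×ˢ (A ×ˢ B)).filter (fun p => p.1 = p.2) = (A ×ˢ B).diag := by
      ext p
      simp only [mem_filter, mem_product, mem_diag]
      constructor
      · rintro ⟨⟨h1, h2⟩, h3⟩; exact ⟨h1, h3⟩
      · rintro ⟨h1, h3⟩; rw [← h3]; exact ⟨⟨h1, h1⟩, rfl⟩
    rw [this, diag_card, card_product]
  have e2 : (((A ×ˢ B) ×ˢ (A ×ˢ B)).filter
      (fun p => p.1.1 ≠ p.2.1 ∧ p.1.2 ≠ p.2.2)).card ≤ (A.card * (A.card - 1)) * (B.card * (B.card - 1)) := by
    have h1 : (((A ×ˢ B) ×ˢ (A ×ˢ B)).filter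
        (fun p => p.1.1 ≠ p.2.1 ∧ p.1.2 ≠ p.2.2)).card ≤ (A.offDiag ×ˢ B.offDiag).card := by
      apply card_le_card_of_injOn (fun p => ((p.1.1, p.2.1), (p.1.2, p.2.2)))
      · intro p hp
        simp only [coe_filter, Set.mem_ofPred_eq, mem_product] at hp
        simp only [mem_coe, mem_product, mem_offDiag]
        exact ⟨⟨hp.1.1.1, hp.1.2.1, hp.2.1⟩, hp.1.1.2, hp.1.2.2, hp.2.2⟩
      · rintro ⟨⟨a, i⟩, ⟨a', i'⟩⟩ _ ⟨⟨b, j⟩, ⟨b', j'⟩⟩ _ h
        simp only [Prod.mk.injEq] at h ⊢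
        tauto
    refine h1.trans (le_of_eq ?_)
    rw [card_product, offDiag_card, offDiag_card]
    have : ∀ n : ℕ, n * n - n = n * (n - 1) := by
      intro n
      rcases n with _ | n
      · rfl
      · simp only [Nat.add_sub_cancel]
        have : (n + 1) * (n + 1) = (n + 1) * n + (n + 1) := by ring
        omega
    rw [this, this]
  rw [e1, mul_comm (A.card * B.card) (q - 1)]
  exact Nat.add_le_add_left e2 _

/-- the deviation from the mean -/
noncomputable def dv (A B : Finset (ZMod q)) (v : ZMod q) : ℝ :=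
  ∑ x, ((cn A B v x : ℝ) - A.card * B.card / q) ^ 2

lemma dv_nonneg (A B : Finset (ZMod q)) (v : ZMod q) : 0 ≤ dv A B v :=
  sum_nonneg fun _ _ => sq_nonneg _

lemma dv_eq (A B : Finset (ZMod q)) (v : ZMod q) :
    dv A B v = ((∑ x, cn A B v x ^ 2 : ℕ) : ℝ) - (A.card * B.card : ℝ) ^ 2 / q := by
  have hq : (q : ℝ) ≠ 0 := by exact_mod_cast (Fact.out : q.Prime).ne_zero
  have h1 : (∑ x, (cn A B v x : ℝ)) = A.card * B.card := by exact_mod_cast sum_cn A B v
  unfold dv
  simp_rw [sub_sq]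
  rw [sum_add_distrib, sum_sub_distrib, ← sum_mul, ← mul_sum, h1, sum_const, card_univ, ZMod.card,
    nsmul_eq_mul]
  push_cast
  field_simp
  ring

lemma sum_dv (A B : Finset (ZMod q)) (hA : A.Nonempty) (hB : B.Nonempty) :
    ∑ v ∈ univ.filter (fun u : ZMod q => u ≠ 0), dv A B v ≤ q * (A.card * B.card) := by
  have hq0 : 0 < q := (Fact.out : q.Prime).pos
  have hq : (0 : ℝ) < q := by exact_mod_cast hq0
  have hA1 : 1 ≤ A.card := hA.card_pos
  have hB1 : 1 ≤ B.card := hB.card_pos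
  have hBq : B.card ≤ q := by
    have := card_le_univ B
    rwa [ZMod.card] at this
  have hcard : ((univ : Finset (ZMod q)).filter (fun u => u ≠ 0)).card = q - 1 := by
    rw [filter_ne' univ (0 : ZMod q), card_erase_of_mem (mem_univ _), card_univ, ZMod.card]
  simp_rw [dv_eq]
  rw [sum_sub_distrib, sum_const, hcard, nsmul_eq_mul]
  have h2 := second2 A B
  have h3 : (∑ u ∈ univ.filter (fun u : ZMod q => u ≠ 0), ((∑ c, cn A B u c ^ 2 : ℕ) : ℝ)) ≤
      (q - 1) * (A.card * B.card) + (A.card * (A.card - 1)) * (B.card * (B.card - 1)) := by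
    have h4 : ((∑ u ∈ univ.filter (fun u : ZMod q => u ≠ 0), ∑ c, cn A B u c ^ 2 : ℕ) : ℝ) ≤
      (((q - 1) * (A.card * B.card) + (A.card * (A.card - 1)) * (B.card * (B.card - 1)) : ℕ) : ℝ) := by
      exact_mod_cast h2
    rw [Nat.cast_sum] at h4
    refine h4.trans (le_of_eq ?_)
    push_cast [Nat.cast_sub hq0, Nat.cast_sub hA1, Nat.cast_sub hB1]
    ring
  have hAr : (1 : ℝ) ≤ A.card := by exact_mod_cast hA1
  have hBr : (1 : ℝ) ≤ B.card := by exact_mod_cast hB1
  have hBqr : (B.card : ℝ) ≤ q := by exact_mod_cast hBq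
  have h5 : (((q - 1 : ℕ) : ℝ)) * ((A.card * B.card : ℝ) ^ 2 / q) =
      (A.card * B.card) ^ 2 - (A.card * B.card) ^ 2 / q := by
    rw [Nat.cast_sub hq0]
    push_cast
    field_simp
  rw [h5]
  have h6 : (A.card * B.card : ℝ) ^ 2 / q ≤ (A.card * B.card) * A.card := by
    rw [div_le_iff₀ hq]
    have : (A.card * B.card : ℝ) ^ 2 = (A.card * B.card) * A.card * B.card := by ring
    rw [this]
    exact mul_le_mul_of_nonneg_left hBqr (by positivity)
  have hAB : (0 : ℝ) ≤ A.card * B.card := by positivity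
  nlinarith

/-- few pairs `(v, x)` without a representation `x = a + v b` -/
theorem pairs (A B : Finset (ZMod q)) (hA : A.Nonempty) (hB : B.Nonempty) (P : Finset (ZMod q × ZMod q))
    (hP : ∀ p ∈ P, p.1 ≠ 0 ∧ ∀ a ∈ A, ∀ b ∈ B, a + p.1 * b ≠ p.2) :
    (P.card : ℝ) * (A.card * B.card) ≤ (q : ℝ) ^ 3 := by
  classical
  have hq0 : 0 < q := (Fact.out : q.Prime).pos
  have hq : (0 : ℝ) < q := by exact_mod_cast hq0
  set m : ℝ := A.card * B.card / q with hm
  have hA1 : (0 : ℝ) < A.card := by exact_mod_cast hA.card_pos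
  have hB1 : (0 : ℝ) < B.card := by exact_mod_cast hB.card_pos
  have h1 : (P.card : ℝ) * m ^ 2 ≤ ∑ v ∈ univ.filter (fun u : ZMod q => u ≠ 0), dv A B v := by
    unfold dv
    rw [← sum_product' (univ.filter (fun u : ZMod q => u ≠ 0)) univ
      (fun v x => ((cn A B v x : ℝ) - A.card * B.card / q) ^ 2)]
    have h2 : P ⊆ univ.filter (fun u : ZMod q => u ≠ 0) ×ˢ univ := by
      intro p hp
      rw [mem_product, mem_filter]
      exact ⟨⟨mem_univ _, (hP p hp).1⟩, mem_univ _⟩
    refine le_trans ?_ (sum_le_sum_of_subset_of_nonneg h2 fun _ _ _ => sq_nonneg _)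
    rw [← nsmul_eq_mul]
    refine card_nsmul_le_sum _ _ _ fun p hp => ?_
    have h3 : cn A B p.1 p.2 = 0 := by
      unfold cn
      rw [card_eq_zero, filter_eq_empty_iff]
      rintro ⟨a, b⟩ hab
      rw [mem_product] at hab
      exact (hP p hp).2 a hab.1 b hab.2
    rw [h3, Nat.cast_zero, zero_sub, neg_sq]
  have h4 := h1.trans (sum_dv A B hA hB)
  have h5 : (A.card : ℝ) * B.card = m * q := by rw [hm]; field_simp
  have hm0 : 0 < m := div_pos (mul_pos hA1 hB1) hq
  rw [h5] at h4 ⊢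
  have h6 : (P.card : ℝ) * m ≤ q * q := by
    have : (P.card : ℝ) * m * m ≤ (q * q) * m := by nlinarith
    exact le_of_mul_le_mul_right this hm0
  calc (P.card : ℝ) * (m * q) = (P.card * m) * q := by ring
    _ ≤ (q * q) * q := mul_le_mul_of_nonneg_right h6 hq.le
    _ = _ := by ring

/-- few `v` for which some `x` is not a sum `(a + a') + v (b + b')` -/
theorem all_classes (A B : Finset (ZMod q)) (hA : A.Nonempty) (hB : B.Nonempty) (V : Finset (ZMod q))
    (hV : ∀ v ∈ V, v ≠ 0 ∧ ∃ x : ZMod q, ∀ a ∈ A, ∀ b ∈ B, ∀ a' ∈ A, ∀ b' ∈ B,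
      (a + a') + v * (b + b') ≠ x) :
    (V.card : ℝ) * (A.card * B.card) ≤ (q : ℝ) ^ 2 := by
  classical
  have hq0 : 0 < q := (Fact.out : q.Prime).pos
  have hq : (0 : ℝ) < q := by exact_mod_cast hq0
  set m : ℝ := A.card * B.card / q with hm
  have hA1 : (0 : ℝ) < A.card := by exact_mod_cast hA.card_pos
  have hB1 : (0 : ℝ) < B.card := by exact_mod_cast hB.card_pos
  have h5 : (A.card : ℝ) * B.card = m * q := by rw [hm]; field_simp
  have hm0 : 0 < m := div_pos (mul_pos hA1 hB1) hq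
  have hdv : ∀ v ∈ V, m ^ 2 * q ≤ dv A B v := by
    intro v hv
    obtain ⟨hv0, x, hx⟩ := hV v hv
    have hsum : (∑ c, (cn A B v c : ℝ)) = m * q := by
      rw [← h5]; exact_mod_cast sum_cn A B v
    have hsum2 : (∑ c, (cn A B v (x - c) : ℝ)) = m * q := by
      rw [← hsum]
      exact Equiv.sum_comp (Equiv.subLeft x) (fun c => (cn A B v c : ℝ))
    have hzero : ∑ c, (cn A B v c : ℝ) * cn A B v (x - c) = 0 := by
      refine sum_eq_zero fun c _ => ?_
      by_contra hne
      have h1 : cn A B v c ≠ 0 := fun h => hne (by rw [h]; simp)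
      have h2 : cn A B v (x - c) ≠ 0 := fun h => hne (by rw [h]; simp)
      unfold cn at h1 h2
      rw [card_ne_zero] at h1 h2
      obtain ⟨⟨a, b⟩, hab⟩ := h1
      obtain ⟨⟨a', b'⟩, hab'⟩ := h2
      simp only [mem_filter, mem_product] at hab hab'
      apply hx a hab.1.1 b hab.1.2 a' hab'.1.1 b' hab'.1.2
      linear_combination hab.2 + hab'.2
    have h3 : ∑ c, ((cn A B v c : ℝ) - m) * ((cn A B v (x - c) : ℝ) - m) = -(m ^ 2 * q) := by
      have : ∀ c, ((cn A B v c : ℝ) - m) * ((cn A B v (x - c) : ℝ) - m) =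
          (cn A B v c : ℝ) * cn A B v (x - c) - m * cn A B v c - m * cn A B v (x - c) + m ^ 2 := by
        intro c; ring
      simp_rw [this]
      rw [sum_add_distrib, sum_sub_distrib, sum_sub_distrib, ← mul_sum, ← mul_sum, hzero, hsum, hsum2,
        sum_const, card_univ, ZMod.card, nsmul_eq_mul]
      ring
    have h4 : ∀ c, -(((cn A B v c : ℝ) - m) * ((cn A B v (x - c) : ℝ) - m)) ≤
        (((cn A B v c : ℝ) - m) ^ 2 + ((cn A B v (x - c) : ℝ) - m) ^ 2) / 2 := by
      intro c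
      nlinarith [sq_nonneg (((cn A B v c : ℝ) - m) + ((cn A B v (x - c) : ℝ) - m))]
    have h6 := sum_le_sum (fun c (_ : c ∈ (univ : Finset (ZMod q))) => h4 c)
    rw [sum_neg_distrib, h3, neg_neg, ← sum_div, sum_add_distrib] at h6
    have h7 : ∑ c, ((cn A B v (x - c) : ℝ) - m) ^ 2 = ∑ c, ((cn A B v c : ℝ) - m) ^ 2 :=
      Equiv.sum_comp (Equiv.subLeft x) (fun c => ((cn A B v c : ℝ) - m) ^ 2)
    rw [h7] at h6
    unfold dv
    rw [← hm]
    linarith
  have hsub : V ⊆ univ.filter (fun u : ZMod q => u ≠ 0) := by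
    intro v hv
    rw [mem_filter]
    exact ⟨mem_univ _, (hV v hv).1⟩
  have h8 : (V.card : ℝ) * (m ^ 2 * q) ≤ q * (m * q) := by
    rw [← h5]
    refine le_trans ?_ (sum_dv A B hA hB)
    refine le_trans ?_ (sum_le_sum_of_subset_of_nonneg hsub fun _ _ _ => dv_nonneg _ _ _)
    rw [← nsmul_eq_mul]
    exact card_nsmul_le_sum _ _ _ hdv
  have h9 : (V.card : ℝ) * m ≤ q := by
    have : (V.card : ℝ) * m * (m * q) ≤ q * (m * q) := by nlinarith
    exact le_of_mul_le_mul_right this (mul_pos hm0 hq)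
  rw [h5]
  calc (V.card : ℝ) * (m * q) = (V.card * m) * q := by ring
    _ ≤ q * q := mul_le_mul_of_nonneg_right h9 hq.le
    _ = _ := by ring

end Pool.Agent.X62.MP
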