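import Pool.Agent.X62.MP.Two

/-! The estimates of `Two` for sets of natural numbers. -/

set_option autoImplicit false

namespace Pool.Agent.X62.MP

open Finset

lemma natcast_injOn' {q : ℕ} (S : Finset ℕ) (hS : ∀ a ∈ S, a < q) :
    Set.InjOn (fun a : ℕ => (a : ZMod q)) (S : Set ℕ) := by
  intro a ha b hb h
  have h1 := (ZMod.natCast_eq_natCast_iff' a b q).1 h
  rwa [Nat.mod_eq_of_lt (hS a ha), Nat.mod_eq_of_lt (hS b hb)] at h1

lemma natcast_ne_zero {q v : ℕ} (h0 : 0 < v) (h1 : v < q) : (v : ZMod q) ≠ 0 := by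
  intro h
  rw [ZMod.natCast_eq_zero_iff] at h
  exact absurd (Nat.le_of_dvd h0 h) (by omega)

theorem pairs_nat (q : ℕ) (hq : q.Prime) (S : Finset ℕ) (hS : S.Nonempty) (hSq : ∀ a ∈ S, a < q)
    (P : Finset (ℕ × ℕ)) (hP : ∀ p ∈ P, 0 < p.1 ∧ p.1 < q ∧ p.2 < q ∧
      ∀ a ∈ S, ∀ b ∈ S, ¬ (a + p.1 * b ≡ p.2 [MOD q])) :
    (P.card : ℝ) * (S.card : ℝ) ^ 2 ≤ (q : ℝ) ^ 3 := by
  classical
  haveI : Fact q.Prime := ⟨hq⟩
  have hinj : Set.InjOn (fun p : ℕ × ℕ => ((p.1 : ZMod q), (p.2 : ZMod q))) (P : Set (ℕ × ℕ)) := by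
    rintro ⟨a, b⟩ ha ⟨a', b'⟩ ha' h
    have h1 := hP _ ha
    have h2 := hP _ ha'
    simp only [Prod.mk.injEq] at h ⊢
    simp only at h1 h2
    have e1 := (ZMod.natCast_eq_natCast_iff' a a' q).1 h.1
    have e2 := (ZMod.natCast_eq_natCast_iff' b b' q).1 h.2
    rw [Nat.mod_eq_of_lt h1.2.1, Nat.mod_eq_of_lt h2.2.1] at e1
    rw [Nat.mod_eq_of_lt h1.2.2.1, Nat.mod_eq_of_lt h2.2.2.1] at e2
    exact ⟨e1, e2⟩
  have h1 := pairs (q := q) (S.image (fun a : ℕ => (a : ZMod q))) (S.image (fun a : ℕ => (a : ZMod q)))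
    (hS.image _) (hS.image _) (P.image (fun p : ℕ × ℕ => ((p.1 : ZMod q), (p.2 : ZMod q)))) ?_
  · rw [card_image_of_injOn (natcast_injOn' S hSq), card_image_of_injOn hinj, ← sq] at h1
    exact h1
  · intro w hw
    obtain ⟨p, hp, rfl⟩ := mem_image.1 hw
    obtain ⟨hv0, hvq, hxq, hx⟩ := hP p hp
    refine ⟨natcast_ne_zero hv0 hvq, ?_⟩
    intro a ha b hb h
    obtain ⟨a', ha', rfl⟩ := mem_image.1 ha
    obtain ⟨b', hb', rfl⟩ := mem_image.1 hb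
    apply hx a' ha' b' hb'
    have h2 : ((a' + p.1 * b' : ℕ) : ZMod q) = ((p.2 : ℕ) : ZMod q) := by push_cast; exact h
    exact (ZMod.natCast_eq_natCast_iff _ _ _).1 h2

theorem all_nat (q : ℕ) (hq : q.Prime) (S : Finset ℕ) (hS : S.Nonempty) (hSq : ∀ a ∈ S, a < q)
    (V : Finset ℕ) (hV : ∀ v ∈ V, 0 < v ∧ v < q ∧ ∃ x : ℕ,
      ∀ a ∈ S, ∀ b ∈ S, ∀ a' ∈ S, ∀ b' ∈ S, ¬ ((a + a') + v * (b + b') ≡ x [MOD q])) :
    (V.card : ℝ) * (S.card : ℝ) ^ 2 ≤ (q : ℝ) ^ 2 := by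
  classical
  haveI : Fact q.Prime := ⟨hq⟩
  have h1 := all_classes (q := q) (S.image (fun a : ℕ => (a : ZMod q)))
    (S.image (fun a : ℕ => (a : ZMod q))) (hS.image _) (hS.image _)
    (V.image (fun a : ℕ => (a : ZMod q))) ?_
  · rw [card_image_of_injOn (natcast_injOn' S hSq),
      card_image_of_injOn (natcast_injOn' V (fun v hv => (hV v hv).2.1)), ← sq] at h1
    exact h1
  · intro w hw
    obtain ⟨v, hv, rfl⟩ := mem_image.1 hw
    obtain ⟨hv0, hvq, x, hx⟩ := hV v hv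
    refine ⟨natcast_ne_zero hv0 hvq, (x : ZMod q), ?_⟩
    intro a ha b hb c hc d hd h
    obtain ⟨a', ha', rfl⟩ := mem_image.1 ha
    obtain ⟨b', hb', rfl⟩ := mem_image.1 hb
    obtain ⟨c', hc', rfl⟩ := mem_image.1 hc
    obtain ⟨d', hd', rfl⟩ := mem_image.1 hd
    apply hx a' ha' b' hb' c' hc' d' hd'
    have h2 : (((a' + c') + v * (b' + d') : ℕ) : ZMod q) = ((x : ℕ) : ZMod q) := by push_cast; exact h
    exact (ZMod.natCast_eq_natCast_iff _ _ _).1 h2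

end Pool.Agent.X62.MP
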